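import Pool.Agent.Lib.LU_h30.Transfer

/-!
Valuations and smooth blowing ups: the intrinsic form.
-/

namespace Pool.Agent.LU_h30

open Pool.Agent.MP_b525bf_ag

/-- The coordinate ring `A[x 0 / y, …, x (n-1) / y]`, inside the fraction field of `A`, of the chart
of the blowing up of `Spec A` in the ideal `(y, x 0, …, x (n-1))` on which `y` generates the
exceptional ideal. -/
def blowupChart (A : Type) [CommRing A] [IsDomain A] {n : ℕ} (x : Fin n → A) (y : A) :
    Subalgebra A (FractionRing A) :=
  Algebra.adjoin A
    (Set.range fun i => algebraMap A (FractionRing A) (x i) / algebraMap A (FractionRing A) y)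

/-- Let `v : A → R` be an injective homomorphism to a valuation ring (a valuation on `Spec A`).
Some blowing up of `Spec A` is smooth over `k` near the center of the lift of this valuation: there
are a nonzero `y` and `x 0, …, x (n-1)` in `A` such that `v y` divides all `v (x i)`, so that the
center of the lift to the blowing up of `Spec A` in the ideal `(y, x 0, …, x (n-1))` lies on the
chart `Spec A[x 0 / y, …, x (n-1) / y]`, and this chart is smooth over `k`. -/
def HasSmoothBlowup (k : Type) {A R : Type} [Field k] [CommRing A] [IsDomain A] [Algebra k A]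
    [CommRing R] (v : A →+* R) : Prop :=
  ∃ (n : ℕ) (x : Fin n → A) (y : A), y ≠ 0 ∧ (∀ i, v y ∣ v (x i)) ∧
    Algebra.Smooth k (blowupChart A x y)

theorem hasSmoothBlowup {k A : Type} [Field k] [CommRing A] [IsDomain A] [Algebra k A]
    (h : HasResolution k A) {R : Type} [CommRing R] [IsDomain R] [ValuationRing R]
    (v : A →+* R) (hv : Function.Injective v) : HasSmoothBlowup k v := by
  let L := FractionRing R
  let _ : Algebra A R := v.toAlgebra
  let _ : Algebra k R := (v.comp (algebraMap k A)).toAlgebra
  have : IsScalarTower k A R := IsScalarTower.of_algebraMap_eq fun _ => rfl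
  have hvL : ∀ a, algebraMap A L a = algebraMap R L (v a) := fun a => rfl
  have hinj : Function.Injective (algebraMap A L) :=
    (IsFractionRing.injective R L).comp hv
  let V : ValuationSubring L :=
    { (algebraMap R L).range with
      mem_or_inv_mem' := fun z => by
        rcases ValuationRing.isInteger_or_isInteger R z with ⟨a, ha⟩ | ⟨a, ha⟩
        · exact Or.inl ⟨a, ha⟩
        · exact Or.inr ⟨a, ha⟩ }
  obtain ⟨n, x, y, hy, hxy, hsm⟩ := exists_smooth_chart (k := k) L hinj V (fun a => ⟨v a, rfl⟩) h
  refine ⟨n, x, y, hy, ?_, ?_⟩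
  · intro i
    obtain ⟨r, hr⟩ := hxy i
    refine ⟨r, IsFractionRing.injective R L ?_⟩
    have hyL : algebraMap A L y ≠ 0 := fun h => hy (hinj (h.trans (map_zero _).symm))
    rw [eq_div_iff hyL] at hr
    rw [map_mul, mul_comm, ← hvL, ← hvL, hr]
  · let τ : FractionRing A →ₐ[A] L := IsFractionRing.liftAlgHom (K := FractionRing A)
      (g := Algebra.ofId A L) hinj
    have hτ : Function.Injective τ := τ.toRingHom.injective
    have hτx : ∀ i, τ (algebraMap A (FractionRing A) (x i) / algebraMap A (FractionRing A) y) =
        algebraMap A L (x i) / algebraMap A L y := by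
      intro i
      rw [map_div₀, AlgHom.commutes, AlgHom.commutes]
    let τ' : blowupChart A x y →ₐ[k] L := (τ.comp (blowupChart A x y).val).restrictScalars k
    have hτ' : Function.Injective τ' := hτ.comp Subtype.val_injective
    have hrange : τ'.range = chart k L x y := by
      apply le_antisymm
      · rintro _ ⟨⟨z, hz⟩, rfl⟩
        change τ z ∈ chart k L x y
        refine Algebra.adjoin_induction (p := fun z _ => τ z ∈ chart k L x y) ?_ ?_ ?_ ?_ hz
        · rintro _ ⟨i, rfl⟩
          rw [hτx]
          exact Algebra.subset_adjoin (Or.inr ⟨i, rfl⟩)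
        · intro a
          rw [AlgHom.commutes]
          exact Algebra.subset_adjoin (Or.inl ⟨a, rfl⟩)
        · intro z w _ _ hz hw
          rw [map_add]
          exact add_mem hz hw
        · intro z w _ _ hz hw
          rw [map_mul]
          exact mul_mem hz hw
      · refine Algebra.adjoin_le ?_
        rintro _ (⟨a, rfl⟩ | ⟨i, rfl⟩)
        · exact ⟨algebraMap A (blowupChart A x y) a, τ.commutes a⟩
        · exact ⟨⟨_, Algebra.subset_adjoin ⟨i, rfl⟩⟩, hτx i⟩
    rw [← hrange] at hsm
    exact Algebra.Smooth.of_equiv (AlgEquiv.ofInjective τ' hτ').symm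

end Pool.Agent.LU_h30
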