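import Pool.Agent.Lib.MP_b525bf_ag.Defs

/-!
A resolution of singularities gives, for every valuation, a blowing up that is smooth at the
center of the lift of the valuation.
-/

open AlgebraicGeometry CategoryTheory

namespace Pool.Agent.LU_h30

open Pool.Agent.MP_b525bf_ag

/-- The chart `A[x 0 / y, …, x (n-1) / y]` of the blowing up of `Spec A` in the ideal
`(y, x 0, …, x (n-1))`, as a subalgebra of a field `L` that contains `A`. -/
def chart (k : Type) {A : Type} (L : Type) [Field k] [CommRing A] [Field L] [Algebra A L]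
    [Algebra k L] {n : ℕ} (x : Fin n → A) (y : A) : Subalgebra k L :=
  Algebra.adjoin k
    (Set.range (algebraMap A L) ∪ Set.range fun i => algebraMap A L (x i) / algebraMap A L y)

theorem appLE_comp' {X Y Z : Scheme.{0}} (f : X ⟶ Y) (g : Y ⟶ Z) (h : X ⟶ Z) (hh : f ≫ g = h)
    (U : Z.Opens) (V : Y.Opens) (W : X.Opens) (e1 : V ≤ g ⁻¹ᵁ U) (e2 : W ≤ f ⁻¹ᵁ V)
    (e3 : W ≤ h ⁻¹ᵁ U) : g.appLE U V e1 ≫ f.appLE V W e2 = h.appLE U W e3 := by
  subst hh
  exact Scheme.Hom.appLE_comp_appLE ..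

theorem le_pre {X Y : Scheme.{0}} (f : X ⟶ Y) (W : X.Opens) : W ≤ f ⁻¹ᵁ ⊤ := fun _ _ => trivial

theorem spec_appLE {R S : CommRingCat.{0}} (f : R ⟶ S) (e : ⊤ ≤ Spec.map f ⁻¹ᵁ ⊤) :
    (Spec.map f).appLE ⊤ ⊤ e ≫ (Scheme.ΓSpecIso S).hom = (Scheme.ΓSpecIso R).hom ≫ f := by
  rw [← Scheme.ΓSpecIso_naturality]
  congr 1

/-- The map `R → Γ(Spec R, D)`. -/
noncomputable def toD (R : CommRingCat.{0}) (D : (Spec R).Opens) : R ⟶ Γ(Spec R, D) :=
  (Scheme.ΓSpecIso R).inv ≫ (Spec R).presheaf.map (homOfLE le_top).op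

theorem toD_appLE {R S : CommRingCat.{0}} (f : R ⟶ S) (D : (Spec R).Opens)
    (e : ⊤ ≤ Spec.map f ⁻¹ᵁ D) :
    toD R D ≫ (Spec.map f).appLE D ⊤ e ≫ (Scheme.ΓSpecIso S).hom = f := by
  rw [toD, Category.assoc, Scheme.Hom.map_appLE_assoc, spec_appLE, Iso.inv_hom_id_assoc]

set_option backward.isDefEq.respectTransparency.types false in
theorem toD_surj (R : CommRingCat.{0}) (f : R) (w : Γ(Spec R, PrimeSpectrum.basicOpen f)) :
    ∃ (n : ℕ) (a : R), w * (toD R (PrimeSpectrum.basicOpen f)).hom f ^ n =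
      (toD R (PrimeSpectrum.basicOpen f)).hom a := by
  have h := IsLocalization.Away.surj (S := Γ(Spec R, PrimeSpectrum.basicOpen f)) f w
  exact h

set_option backward.isDefEq.respectTransparency.types false in
theorem toD_unit (R : CommRingCat.{0}) (f : R) :
    IsUnit ((toD R (PrimeSpectrum.basicOpen f)).hom f) := by
  have h := IsLocalization.Away.algebraMap_isUnit (S := Γ(Spec R, PrimeSpectrum.basicOpen f)) f
  exact h

theorem gen_mem {A : Type} [CommRing A] [IsDomain A] (U : (Spec (CommRingCat.of A)).Opens)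
    (hU : Dense (U : Set (Spec (CommRingCat.of A)))) :
    (⟨⊥, Ideal.isPrime_bot⟩ : PrimeSpectrum A) ∈ U := by
  obtain ⟨q, hq⟩ := hU.nonempty (h := ⟨(⟨⊥, Ideal.isPrime_bot⟩ : PrimeSpectrum A)⟩)
  have hs : (⟨⊥, Ideal.isPrime_bot⟩ : PrimeSpectrum A) ⤳ q := by
    rw [← PrimeSpectrum.le_iff_specializes]
    exact bot_le (a := q.asIdeal)
  exact hs.mem_open U.isOpen hq

theorem gen_eq {A : Type} [CommRing A] [IsDomain A] (L : Type) [Field L] [Algebra A L]
    (hinj : Function.Injective (algebraMap A L)) (q : Spec (CommRingCat.of L)) :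
    (Spec.map (CommRingCat.ofHom (algebraMap A L))) q =
      (⟨⊥, Ideal.isPrime_bot⟩ : PrimeSpectrum A) := by
  apply PrimeSpectrum.ext
  change Ideal.comap (algebraMap A L) q.asIdeal = ⊥
  have hq : q.asIdeal = ⊥ := (Ideal.eq_bot_or_top q.asIdeal).resolve_right q.isPrime.ne_top
  rw [hq]
  exact (RingHom.injective_iff_ker_eq_bot _).1 hinj

/-- The lift of a valuation to a resolution. -/
theorem exists_lift {k A : Type} [Field k] [CommRing A] [IsDomain A] [Algebra k A]
    (L : Type) [Field L] [Algebra A L]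
    (hinj : Function.Injective (algebraMap A L)) (V : ValuationSubring L)
    (hV : ∀ a : A, algebraMap A L a ∈ V)
    (Y : Scheme.{0}) (π : Y ⟶ Spec (CommRingCat.of A)) [IsIntegral Y] [IsProper π]
    (U : (Spec (CommRingCat.of A)).Opens) (hU : Dense (U : Set (Spec (CommRingCat.of A))))
    [IsIso (π ∣_ U)] :
    ∃ (i : Spec (CommRingCat.of L) ⟶ Y) (l : Spec (CommRingCat.of V) ⟶ Y),
      i ≫ π = Spec.map (CommRingCat.ofHom (algebraMap A L)) ∧
      Spec.map (CommRingCat.ofHom (algebraMap V L)) ≫ l = i := by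
  have hrange : Set.range (Spec.map (CommRingCat.ofHom (algebraMap A L))) ⊆ Set.range U.ι := by
    rw [Scheme.Opens.range_ι]
    rintro _ ⟨q, rfl⟩
    rw [gen_eq L hinj q]
    exact gen_mem U hU
  let j : Spec (CommRingCat.of L) ⟶ U := IsOpenImmersion.lift U.ι _ hrange
  have hj : j ≫ U.ι = Spec.map (CommRingCat.ofHom (algebraMap A L)) :=
    IsOpenImmersion.lift_fac _ _ _
  let i : Spec (CommRingCat.of L) ⟶ Y := j ≫ inv (π ∣_ U) ≫ (π ⁻¹ᵁ U).ι
  have hi : i ≫ π = Spec.map (CommRingCat.ofHom (algebraMap A L)) := by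
    rw [← hj]
    simp only [i, Category.assoc]
    rw [← morphismRestrict_ι, IsIso.inv_hom_id_assoc]
  let φ : A →+* V := (algebraMap A L).codRestrict V.toSubring hV
  have hw : CommSq i (Spec.map (CommRingCat.ofHom (algebraMap V L))) π
      (Spec.map (CommRingCat.ofHom φ)) := by
    constructor
    rw [hi, ← Spec.map_comp]
    rfl
  have hval : ValuativeCriterion.Existence π := by
    have h := (inferInstance : UniversallyClosed π)
    rw [UniversallyClosed.eq_valuativeCriterion] at h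
    exact h.1
  obtain ⟨l, hl1, hl2⟩ := (hval { R := V, K := L, i₁ := i, i₂ := _, commSq := hw }).exists_lift
  exact ⟨i, l, hi, hl1⟩

/-- The local ring chart. -/
theorem exists_subalgebra {k A : Type} [Field k] [CommRing A] [IsDomain A] [Algebra k A]
    (L : Type) [Field L] [Algebra A L] [Algebra k L] [IsScalarTower k A L]
    (hinj : Function.Injective (algebraMap A L)) (V : ValuationSubring L)
    (hV : ∀ a : A, algebraMap A L a ∈ V) (h : HasResolution k A) :
    ∃ C : Subalgebra k L, Algebra.Smooth k C ∧ (∀ a : A, algebraMap A L a ∈ C) ∧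
      (∀ c ∈ C, c ∈ V) ∧
      (∀ c ∈ C, ∃ a b : A, b ≠ 0 ∧ c * algebraMap A L b = algebraMap A L a) := by
  classical
  obtain ⟨Y, π, hY, hprop, hsm, U, hU, hiso⟩ := h
  obtain ⟨i, l, hi, hl⟩ := exists_lift (k := k) L hinj V hV Y π U hU
  set x : Spec (CommRingCat.of V) := IsLocalRing.closedPoint V with hx
  obtain ⟨W, hW, hxW, -⟩ := exists_isAffineOpen_mem_and_subset (X := Y) (x := l x) (U := ⊤)
    trivial
  have hlW : (⊤ : (Spec (CommRingCat.of V)).Opens) ≤ l ⁻¹ᵁ W := by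
    intro q _
    have : (q : PrimeSpectrum V) ⤳ IsLocalRing.closedPoint V :=
      IsLocalRing.specializes_closedPoint q
    exact (this.map l.continuous).mem_open W.isOpen hxW
  have hiW : (⊤ : (Spec (CommRingCat.of L)).Opens) ≤ i ⁻¹ᵁ W := by
    rw [← hl]
    intro q _
    exact hlW trivial
  -- the open immersion `π⁻¹ U → Spec A`
  have hq : IsOpenImmersion ((π ⁻¹ᵁ U).ι ≫ π) := by
    rw [← morphismRestrict_ι]
    infer_instance
  set q : (π ⁻¹ᵁ U).toScheme ⟶ Spec (CommRingCat.of A) := (π ⁻¹ᵁ U).ι ≫ π with hqdef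
  let W' : (Spec (CommRingCat.of A)).Opens := q ''ᵁ ((π ⁻¹ᵁ U).ι ⁻¹ᵁ W)
  have hgW' : (⟨⊥, Ideal.isPrime_bot⟩ : PrimeSpectrum A) ∈ W' := by
    let pt : Spec (CommRingCat.of L) := IsLocalRing.closedPoint L
    have h1 : (Spec.map (CommRingCat.ofHom (algebraMap A L))) pt =
        (⟨⊥, Ideal.isPrime_bot⟩ : PrimeSpectrum A) := gen_eq L hinj pt
    have h2 : π (i pt) = (⟨⊥, Ideal.isPrime_bot⟩ : PrimeSpectrum A) := by
      rw [← h1, ← hi]; rfl
    have h3 : i pt ∈ π ⁻¹ᵁ U := by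
      change π (i pt) ∈ U
      rw [h2]; exact gen_mem U hU
    have h4 : i pt ∈ W := hiW (x := pt) trivial
    refine ⟨⟨i pt, h3⟩, h4, ?_⟩
    rw [← h2]; rfl
  obtain ⟨_, ⟨f, rfl⟩, hfgen, hfW'⟩ :=
    (PrimeSpectrum.isTopologicalBasis_basic_opens (R := A)).exists_subset_of_mem_open
      hgW' W'.isOpen
  have hf0 : f ≠ 0 := by
    rintro rfl
    exact hfgen (Ideal.zero_mem _)
  let D : (Spec (CommRingCat.of A)).Opens := PrimeSpectrum.basicOpen f
  have hDW' : D ≤ W' := hfW'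
  have hDq : D ≤ q.opensRange := hDW'.trans (Scheme.Hom.image_le_opensRange _ _)
  have hDU : D ≤ U := by
    intro z hz
    obtain ⟨w, hw⟩ := hDq hz
    rw [← hw]
    exact w.2
  have hEW : π ⁻¹ᵁ D ≤ W := by
    intro y hy
    obtain ⟨w, hwW, hw⟩ := hDW' hy
    have hyU : y ∈ π ⁻¹ᵁ U := hDU hy
    have : w = ⟨y, hyU⟩ := q.isOpenEmbedding.injective (hw.trans rfl)
    rw [this] at hwW
    exact hwW
  have hisoD : IsIso (π.app D) := by
    have h1 : IsIso (q.app D) := Scheme.Hom.isIso_app q D hDq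
    have h2 : IsIso ((π ⁻¹ᵁ U).ι.app (π ⁻¹ᵁ D)) := by
      refine Scheme.Hom.isIso_app _ _ ?_
      rw [Scheme.Opens.opensRange_ι]
      exact fun y hy => hDU hy
    have h3 : IsIso (π.app D ≫ (π ⁻¹ᵁ U).ι.app (π ⁻¹ᵁ D)) := by
      have := Scheme.Hom.comp_app (π ⁻¹ᵁ U).ι π D
      rw [← this]
      exact h1
    exact IsIso.of_isIso_comp_right (π.app D) ((π ⁻¹ᵁ U).ι.app (π ⁻¹ᵁ D))
  have hiE : (⊤ : (Spec (CommRingCat.of L)).Opens) ≤ i ⁻¹ᵁ (π ⁻¹ᵁ D) := by
    intro z _
    change (i ≫ π) z ∈ D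
    rw [hi, gen_eq L hinj z]
    exact hfgen
  let γ : Γ(Y, W) →+* L := (i.appLE W ⊤ hiW ≫ (Scheme.ΓSpecIso (.of L)).hom).hom
  let φ : Γ(Y, W) →+* V := (l.appLE W ⊤ hlW ≫ (Scheme.ΓSpecIso (.of V)).hom).hom
  have hγφ : ∀ z, γ z = φ z := by
    have h2 : i.appLE W ⊤ hiW ≫ (Scheme.ΓSpecIso (.of L)).hom =
        (l.appLE W ⊤ hlW ≫ (Scheme.ΓSpecIso (.of V)).hom) ≫
          CommRingCat.ofHom (algebraMap V L) := by
      rw [Category.assoc, ← spec_appLE _ (le_pre _ _), ← Category.assoc,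
        appLE_comp' _ _ _ hl]
    intro z
    exact congrArg (fun F => F.hom z) h2
  let α : A →+* Γ(Y, W) := ((Scheme.ΓSpecIso (.of A)).inv ≫
    π.appLE ⊤ W (le_pre _ _)).hom
  have hγα : ∀ a, γ (α a) = algebraMap A L a := by
    have h1 : ((Scheme.ΓSpecIso (.of A)).inv ≫ π.appLE ⊤ W (le_pre _ _)) ≫
        (i.appLE W ⊤ hiW ≫ (Scheme.ΓSpecIso (.of L)).hom) =
        CommRingCat.ofHom (algebraMap A L) := by
      rw [Category.assoc, ← Category.assoc (Scheme.Hom.appLE π _ _ _),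
        appLE_comp' _ _ _ hi _ _ _ _ _ (le_pre _ _), spec_appLE, Iso.inv_hom_id_assoc]
    intro a
    exact congrArg (fun F => F.hom a) h1
  let κ : k →+* Γ(Y, W) := ((Scheme.ΓSpecIso (.of k)).inv ≫
    (π ≫ Spec.map (CommRingCat.ofHom (algebraMap k A))).appLE ⊤ W (le_pre _ _)).hom
  have hκ : κ.Smooth := by
    have h1 := Scheme.Hom.smooth_appLE (π ≫ Spec.map (CommRingCat.ofHom (algebraMap k A)))
      (isAffineOpen_top (Spec (CommRingCat.of k))) hW (le_pre _ _)
    have := RingHom.Smooth.respectsIso.2 _ (Scheme.ΓSpecIso (.of k)).symm.commRingCatIsoToRingEquiv h1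
    exact this
  have hκα : ∀ c, κ c = α (algebraMap k A c) := by
    have h1 : (Scheme.ΓSpecIso (.of k)).inv ≫
        (π ≫ Spec.map (CommRingCat.ofHom (algebraMap k A))).appLE ⊤ W (le_pre _ _) =
        CommRingCat.ofHom (algebraMap k A) ≫
          ((Scheme.ΓSpecIso (.of A)).inv ≫ π.appLE ⊤ W (le_pre _ _)) := by
      rw [← appLE_comp' _ _ _ rfl ⊤ ⊤ W (le_pre _ _) (le_pre _ _)]
      rw [← cancel_epi (Scheme.ΓSpecIso (.of k)).hom, Iso.hom_inv_id_assoc, ← Category.assoc,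
        ← spec_appLE _ (le_pre _ _), Category.assoc, Iso.hom_inv_id_assoc]
    intro c
    exact congrArg (fun F => F.hom c) h1
  let δ : Γ(Spec (CommRingCat.of A), D) →+* L :=
    ((π.app D) ≫ i.appLE (π ⁻¹ᵁ D) ⊤ hiE ≫ (Scheme.ΓSpecIso (.of L)).hom).hom
  let β : A →+* Γ(Spec (CommRingCat.of A), D) := (toD (CommRingCat.of A) D).hom
  have hδ : ∀ a : A, δ (β a) = algebraMap A L a := by
    have h1 : toD (CommRingCat.of A) D ≫ ((π.app D) ≫ i.appLE (π ⁻¹ᵁ D) ⊤ hiE ≫
        (Scheme.ΓSpecIso (.of L)).hom) = CommRingCat.ofHom (algebraMap A L) := by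
      rw [Scheme.Hom.app_eq_appLE, ← Category.assoc (Scheme.Hom.appLE π _ _ _),
        appLE_comp' _ _ _ hi _ _ _ _ _ (hi ▸ hiE), toD_appLE]
    intro a
    exact congrArg (fun F => F.hom a) h1
  have hδγ : ∀ z : Γ(Y, W), ∃ w : Γ(Spec (CommRingCat.of A), D), δ w = γ z ∧
      (w = 0 → z = 0) := by
    intro z
    let r : Γ(Y, W) ⟶ Γ(Y, π ⁻¹ᵁ D) := Y.presheaf.map (homOfLE hEW).op
    have hr : r ≫ i.appLE (π ⁻¹ᵁ D) ⊤ hiE = i.appLE W ⊤ hiW := Scheme.Hom.map_appLE _ _ _
    refine ⟨(r ≫ inv (π.app D)).hom z, ?_, ?_⟩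
    · have h1 : (r ≫ inv (π.app D)) ≫ ((π.app D) ≫ i.appLE (π ⁻¹ᵁ D) ⊤ hiE ≫
        (Scheme.ΓSpecIso (.of L)).hom) = i.appLE W ⊤ hiW ≫ (Scheme.ΓSpecIso (.of L)).hom := by
        rw [Category.assoc, IsIso.inv_hom_id_assoc, ← Category.assoc, hr]
      exact congrArg (fun F => F.hom z) h1
    · intro h
      have h1 : r.hom z = 0 := by
        have h2 : ((r ≫ inv (π.app D)) ≫ π.app D).hom z = (π.app D).hom 0 :=
          congrArg (π.app D).hom h
        rw [Category.assoc, IsIso.inv_hom_id, Category.comp_id, map_zero] at h2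
        exact h2
      have hne : Nonempty (π ⁻¹ᵁ D) := by
        let pt : Spec (CommRingCat.of L) := IsLocalRing.closedPoint L
        exact ⟨⟨i pt, hiE (x := pt) trivial⟩⟩
      have hinjr := map_injective_of_isIntegral Y (homOfLE hEW)
      exact hinjr (h1.trans (map_zero _).symm)
  have hfL : algebraMap A L f ≠ 0 := fun h => hf0 (hinj (h.trans (map_zero _).symm))
  have hfrac : ∀ z : Γ(Y, W), ∃ (n : ℕ) (a : A), γ z * algebraMap A L f ^ n = algebraMap A L a ∧
      (a = 0 → z = 0) := by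
    intro z
    obtain ⟨w, hw, hw0⟩ := hδγ z
    obtain ⟨n, a, hna⟩ := toD_surj (CommRingCat.of A) f w
    refine ⟨n, a, ?_, ?_⟩
    · have h1 := congrArg δ hna
      rw [map_mul, map_pow] at h1
      rw [← hw, ← hδ, ← hδ]
      exact h1
    · rintro rfl
      apply hw0
      have h1 : (toD (CommRingCat.of A) (PrimeSpectrum.basicOpen f)).hom (0 : A) = 0 :=
        map_zero _
      rw [h1] at hna
      exact ((toD_unit (CommRingCat.of A) f).pow n).mul_left_eq_zero.1 hna
  have hγinj : Function.Injective γ := by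
    rw [injective_iff_map_eq_zero]
    intro z hz
    obtain ⟨n, a, hna, ha⟩ := hfrac z
    apply ha
    apply hinj
    rw [← hna, hz, zero_mul, map_zero]
  let _ : Algebra k Γ(Y, W) := κ.toAlgebra
  have hsmC : Algebra.Smooth k Γ(Y, W) := hκ
  let γ' : Γ(Y, W) →ₐ[k] L :=
    { γ with
      commutes' := fun c => by
        change γ (κ c) = _
        rw [hκα, hγα, ← IsScalarTower.algebraMap_apply] }
  refine ⟨γ'.range, ?_, ?_, ?_, ?_⟩
  · exact Algebra.Smooth.of_equiv (AlgEquiv.ofInjective γ' hγinj)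
  · intro a
    exact ⟨α a, hγα a⟩
  · rintro _ ⟨z, rfl⟩
    change γ z ∈ V
    rw [hγφ]
    exact (φ z).2
  · rintro _ ⟨z, rfl⟩
    obtain ⟨n, a, hna, -⟩ := hfrac z
    exact ⟨a, f ^ n, pow_ne_zero _ hf0, by rw [map_pow]; exact hna⟩

/-- A resolution of singularities of `Spec A` gives, for every valuation ring `V` that contains
`A`, a blowing up of `Spec A` whose chart at the center of `V` is smooth. -/
theorem exists_smooth_chart {k A : Type} [Field k] [CommRing A] [IsDomain A] [Algebra k A]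
    (L : Type) [Field L] [Algebra A L] [Algebra k L] [IsScalarTower k A L]
    (hinj : Function.Injective (algebraMap A L)) (V : ValuationSubring L)
    (hV : ∀ a : A, algebraMap A L a ∈ V) (h : HasResolution k A) :
    ∃ (n : ℕ) (x : Fin n → A) (y : A), y ≠ 0 ∧
      (∀ i, algebraMap A L (x i) / algebraMap A L y ∈ V) ∧ Algebra.Smooth k (chart k L x y) := by
  classical
  obtain ⟨C, hsm, hA, hCV, hfr⟩ := exists_subalgebra L hinj V hV h
  have hfg : C.FG := by
    rw [Subalgebra.fg_iff_finiteType]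
    infer_instance
  obtain ⟨S, hS⟩ := hfg
  have hfr' : ∀ c : L, ∃ a b : A, b ≠ 0 ∧ (c ∈ C → c = algebraMap A L a / algebraMap A L b) := by
    intro c
    by_cases hc : c ∈ C
    · obtain ⟨a, b, hb, h1⟩ := hfr c hc
      refine ⟨a, b, hb, fun _ => ?_⟩
      rw [eq_div_iff (fun h => hb (hinj (h.trans (map_zero _).symm))), h1]
    · exact ⟨0, 1, one_ne_zero, fun h => absurd h hc⟩
  choose a b hb hab using hfr'
  have hb' : ∀ c, algebraMap A L (b c) ≠ 0 := fun c h => hb c (hinj (h.trans (map_zero _).symm))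
  let e := S.equivFin.symm
  let y : A := ∏ c ∈ S, b c
  have hy : y ≠ 0 := Finset.prod_ne_zero_iff.2 fun c _ => hb c
  have hy' : algebraMap A L y ≠ 0 := fun h => hy (hinj (h.trans (map_zero _).symm))
  let x : Fin S.card → A := fun i => a (e i) * ∏ c ∈ S.erase (e i), b c
  have hx : ∀ i, algebraMap A L (x i) / algebraMap A L y = e i := by
    intro i
    have hi : ((e i : S) : L) ∈ S := (e i).2
    have hiC : ((e i : S) : L) ∈ C := by rw [← hS]; exact Algebra.subset_adjoin hi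
    have h1 : algebraMap A L y = algebraMap A L (b (e i)) *
        algebraMap A L (∏ c ∈ S.erase (e i), b c) := by
      rw [← map_mul, Finset.mul_prod_erase S b hi]
    have h2 : algebraMap A L (∏ c ∈ S.erase (e i), b c) ≠ 0 := by
      intro h
      rw [h, mul_zero] at h1
      exact hy' h1
    rw [h1, map_mul, mul_div_mul_right _ _ h2]
    exact (hab _ hiC).symm
  have hchart : chart k L x y = C := by
    apply le_antisymm
    · refine Algebra.adjoin_le ?_
      rintro _ (⟨c, rfl⟩ | ⟨i, rfl⟩)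
      · exact hA c
      · change algebraMap A L (x i) / algebraMap A L y ∈ C
        rw [hx, ← hS]
        exact Algebra.subset_adjoin (e i).2
    · rw [← hS]
      refine Algebra.adjoin_mono ?_
      intro c hc
      refine Or.inr ⟨e.symm ⟨c, hc⟩, ?_⟩
      change algebraMap A L (x _) / algebraMap A L y = c
      rw [hx, Equiv.apply_symm_apply]
  refine ⟨S.card, x, y, hy, ?_, ?_⟩
  · intro i
    rw [hx]
    apply hCV
    rw [← hS]
    exact Algebra.subset_adjoin (e i).2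
  · rw [hchart]
    exact hsm

end Pool.Agent.LU_h30
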